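import Pool.Agent.H99.ADJ.Base2

/-! # Project ADJ, module DEB: polynomial decay -/

set_option autoImplicit false

open MeasureTheory ProbabilityTheory Set Filter Topology
open scoped NNReal ENNReal NNRat

namespace Pool.ADJ

private theorem deb_half {L x : ℝ} (hL : 1 < L) (hx : 0 < x) {n : ℕ}
    (hn : Real.log x / Real.log L < n + 1) :
    (1 / 2 : ℝ) ^ n ≤ 2 * (x⁻¹) ^ (Real.log 2 / Real.log L) := by
  have hlog : 0 < Real.log L := Real.log_pos hL
  have h2 : 0 < Real.log 2 := Real.log_pos one_lt_two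
  have e1 : (x⁻¹) ^ (Real.log 2 / Real.log L) =
      Real.exp (-(Real.log 2 * (Real.log x / Real.log L))) := by
    rw [Real.rpow_def_of_pos (inv_pos.2 hx), Real.log_inv]
    congr 1
    ring
  have e2 : (1 / 2 : ℝ) ^ n = 2 * Real.exp (-(Real.log 2 * (n + 1))) := by
    have : Real.exp (-(Real.log 2 * (n + 1))) = (1 / 2 : ℝ) ^ (n + 1) := by
      rw [show -(Real.log 2 * ((n : ℝ) + 1)) = ((n + 1 : ℕ) : ℝ) * (-Real.log 2) by
        push_cast; ring, Real.exp_nat_mul, Real.exp_neg, Real.exp_log two_pos, one_div]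
    rw [this, pow_succ]
    ring
  rw [e1, e2]
  refine mul_le_mul_of_nonneg_left (Real.exp_le_exp.2 ?_) (by norm_num)
  have := mul_le_mul_of_nonneg_left hn.le h2.le
  linarith

theorem deb_thm : S_DEB := by
  intro Ω _ μ B hB hI
  obtain ⟨L, hL, ρ, hρ, C, hC, h⟩ := hI
  have hp := hB.gp.isProbabilityMeasure
  have hlog : 0 < Real.log L := Real.log_pos (by linarith)
  have hα : 0 < Real.log 2 / Real.log L := div_pos (Real.log_pos one_lt_two) hlog
  refine ⟨(2 * C + 1) * (ρ ^ 2) ^ (-(Real.log 2 / Real.log L)), Real.log 2 / Real.log L,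
    by positivity, hα, fun r t hr ht => ?_⟩
  have e : (2 * C + 1) * (ρ ^ 2) ^ (-(Real.log 2 / Real.log L)) *
      (r ^ 2 / t) ^ (Real.log 2 / Real.log L) =
      (2 * C + 1) * (((r / ρ) ^ 2) / t) ^ (Real.log 2 / Real.log L) := by
    have e1 : ((r / ρ) ^ 2) / t = (r ^ 2 / t) * (ρ ^ 2)⁻¹ := by
      field_simp
    rw [e1, Real.mul_rpow (by positivity) (by positivity), Real.inv_rpow (by positivity),
      Real.rpow_neg (by positivity)]
    ring
  rw [e]
  have hs : 0 < (r / ρ) ^ 2 := by positivity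
  have hr2 : r ≤ ρ * √((r / ρ) ^ 2) := by
    rw [Real.sqrt_sq (by positivity)]
    exact le_of_eq (by field_simp)
  generalize (r / ρ) ^ 2 = s at *
  by_cases hts : t ≤ s
  · have h1 : 1 ≤ (s / t) ^ (Real.log 2 / Real.log L) :=
      Real.one_le_rpow ((one_le_div ht).2 hts) hα.le
    calc μ {ω | BallInf (tr B ω 0 t) r} ≤ 1 := prob_le_one
      _ = ENNReal.ofReal 1 := ENNReal.ofReal_one.symm
      _ ≤ ENNReal.ofReal ((2 * C + 1) * (s / t) ^ (Real.log 2 / Real.log L)) :=
        ENNReal.ofReal_le_ofReal (by nlinarith)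
  · push Not at hts
    have hx : 0 < t / s := div_pos ht hs
    have hx1 : 1 < t / s := (one_lt_div hs).2 hts
    have hq : 0 ≤ Real.log (t / s) / Real.log L := div_nonneg (Real.log_nonneg hx1.le) hlog.le
    have hn1 := Nat.floor_le hq
    have hn2 := Nat.lt_floor_add_one (Real.log (t / s) / Real.log L)
    generalize ⌊Real.log (t / s) / Real.log L⌋₊ = n at hn1 hn2
    have h1 : L ^ n * s ≤ t := by
      rw [← le_div_iff₀ hs, ← Real.log_le_log_iff (pow_pos (by linarith) n) hx, Real.log_pow]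
      rwa [le_div_iff₀ hlog] at hn1
    have h2 := deb_half (show 1 < L by linarith) hx hn2
    rw [inv_div] at h2
    refine (measure_mono ?_).trans ((h s r hs hr2 n).trans (ENNReal.ofReal_le_ofReal ?_))
    · intro ω hω j hj
      obtain ⟨z, hz, hz2⟩ := hω
      refine ⟨z, hz, hz2.mono (tr_mono B ω ?_ ?_)⟩
      · have : 0 < L ^ j := pow_pos (by linarith) j
        positivity
      · have h3 : L ^ (j + 1) ≤ L ^ n := pow_le_pow_right₀ (by linarith) hj
        exact (mul_le_mul_of_nonneg_right h3 hs.le).trans h1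
    · have h3 : 0 ≤ (s / t) ^ (Real.log 2 / Real.log L) := by positivity
      calc C / 2 ^ n = C * (1 / 2) ^ n := by
            rw [one_div, inv_pow, div_eq_mul_inv]
        _ ≤ C * (2 * (s / t) ^ (Real.log 2 / Real.log L)) := mul_le_mul_of_nonneg_left h2 hC
        _ ≤ (2 * C + 1) * (s / t) ^ (Real.log 2 / Real.log L) := by nlinarith

end Pool.ADJ
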