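import Pool.Agent.H99.ADJ.Base2

/-! # Project ADJ, module HIT: small balls are hit with small probability, uniformly -/

set_option autoImplicit false

open MeasureTheory ProbabilityTheory Set Filter Topology
open scoped NNReal ENNReal NNRat

namespace Pool.ADJ

private theorem hit_iff {f : ℝ → Pl} (hf : Continuous f) {b : ℝ} (hb : 1 < b) (y : Pl) (δ : ℝ) :
    (∃ u ∈ Set.Icc (1 : ℝ) b, ‖f u - y‖ < δ) ↔
      ∃ q : ℚ, (q : ℝ) ∈ Set.Icc (1 : ℝ) b ∧ ‖f q - y‖ < δ := by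
  constructor
  · rintro ⟨u, hu, h⟩
    have hopen : IsOpen {v : ℝ | ‖f v - y‖ < δ} :=
      isOpen_lt (hf.sub continuous_const).norm continuous_const
    have hcl : u ∈ closure (Set.Ioo (1 : ℝ) b) := by
      rw [closure_Ioo hb.ne]
      exact hu
    have hne := mem_closure_iff.1 hcl _ hopen h
    have ho : IsOpen ({v : ℝ | ‖f v - y‖ < δ} ∩ Set.Ioo (1 : ℝ) b) := hopen.inter isOpen_Ioo
    obtain ⟨v, hv, q, rfl⟩ := Rat.denseRange_cast.exists_mem_open ho hne |>.elim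
      fun q hq => (⟨(q : ℝ), hq, q, rfl⟩ : ∃ v : ℝ, v ∈ {v : ℝ | ‖f v - y‖ < δ} ∩
        Set.Ioo (1 : ℝ) b ∧ ∃ q : ℚ, (q : ℝ) = v)
    exact ⟨q, Ioo_subset_Icc_self hv.2, hv.1⟩
  · rintro ⟨q, hq, h⟩
    exact ⟨q, hq, h⟩

private theorem hit_meas {Ω : Type} [MeasurableSpace Ω] {μ : Measure Ω} {B : ℝ → Ω → Pl}
    (hB : PB μ B) {b : ℝ} (hb : 1 < b) (y : Pl) (δ : ℝ) :
    MeasurableSet {ω | ∃ u ∈ Set.Icc (1 : ℝ) b, ‖B u ω - y‖ < δ} := by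
  have e : {ω | ∃ u ∈ Set.Icc (1 : ℝ) b, ‖B u ω - y‖ < δ} =
      ⋃ q : ℚ, {ω | (q : ℝ) ∈ Set.Icc (1 : ℝ) b ∧ ‖B q ω - y‖ < δ} := by
    ext ω
    simp only [mem_iUnion]
    exact hit_iff (hB.cont ω) hb y δ
  rw [e]
  refine MeasurableSet.iUnion fun q => ?_
  by_cases hq : (q : ℝ) ∈ Set.Icc (1 : ℝ) b
  · have e2 : {ω | (q : ℝ) ∈ Set.Icc (1 : ℝ) b ∧ ‖B q ω - y‖ < δ} = {ω | ‖B q ω - y‖ < δ} := by
      ext ω
      exact ⟨fun h => h.2, fun h => ⟨hq, h⟩⟩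
    rw [e2]
    have hm : Measurable (B (q : ℝ)) := hB.meas _ (by linarith [hq.1])
    exact measurableSet_lt (hm.sub measurable_const).norm measurable_const
  · have e2 : {ω | (q : ℝ) ∈ Set.Icc (1 : ℝ) b ∧ ‖B q ω - y‖ < δ} = ∅ := by
      ext ω
      exact ⟨fun h => hq h.1, fun h => h.elim⟩
    rw [e2]
    exact MeasurableSet.empty

private theorem hit_one (h_POL : S_POL) {Ω : Type} [MeasurableSpace Ω] {μ : Measure Ω}
    {B : ℝ → Ω → Pl} (hB : PB μ B) {b : ℝ} (hb : 1 < b) (y : Pl) :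
    ∃ δ : ℝ, 0 < δ ∧ μ {ω | ∃ u ∈ Set.Icc (1 : ℝ) b, ‖B u ω - y‖ < δ} ≤
      ENNReal.ofReal (1 / 8) := by
  have hp := hB.gp.isProbabilityMeasure
  have hanti : Antitone fun n : ℕ =>
      {ω | ∃ u ∈ Set.Icc (1 : ℝ) b, ‖B u ω - y‖ < 1 / ((n : ℝ) + 1)} := by
    intro m n hmn ω hω
    obtain ⟨u, hu, h⟩ := hω
    refine ⟨u, hu, h.trans_le ?_⟩
    exact one_div_le_one_div_of_le (by positivity) (by exact_mod_cast Nat.succ_le_succ hmn)
  have hlim := tendsto_measure_iInter_atTop (μ := μ)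
    (fun n : ℕ => (hit_meas hB hb y (1 / ((n : ℝ) + 1))).nullMeasurableSet) hanti
    ⟨0, measure_ne_top μ _⟩
  have hzero : μ (⋂ n : ℕ, {ω | ∃ u ∈ Set.Icc (1 : ℝ) b, ‖B u ω - y‖ < 1 / ((n : ℝ) + 1)}) =
      0 := by
    refine measure_mono_null ?_ (h_POL Ω μ B hB 1 b one_pos hb y)
    intro ω hω
    rw [mem_iInter] at hω
    have hcl : IsClosed (tr B ω 1 b) := (isCompact_Icc.image (hB.cont ω)).isClosed
    change y ∈ tr B ω 1 b
    rw [← hcl.closure_eq, Metric.mem_closure_iff]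
    intro ε hε
    obtain ⟨n, hn⟩ := exists_nat_one_div_lt hε
    obtain ⟨u, hu, h⟩ := hω n
    refine ⟨B u ω, ⟨u, hu, rfl⟩, ?_⟩
    rw [dist_comm, dist_eq_norm]
    exact h.trans hn
  rw [hzero] at hlim
  have h8 : (0 : ℝ≥0∞) < ENNReal.ofReal (1 / 8) := by
    rw [ENNReal.ofReal_pos]
    norm_num
  obtain ⟨n, hn⟩ := (hlim.eventually (gt_mem_nhds h8)).exists
  exact ⟨1 / ((n : ℝ) + 1), by positivity, hn.le⟩

theorem hit_thm (h_POL : S_POL) : S_HIT := by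
  intro Ω _ μ B hB b hb
  have hp := hB.gp.isProbabilityMeasure
  choose δ hδ hδ2 using fun y => hit_one h_POL hB hb y
  obtain ⟨T, hT⟩ := (isCompact_closedBall (0 : Pl) 8).elim_finite_subcover
    (fun y => Metric.ball y (δ y / 2)) (fun y => Metric.isOpen_ball)
    (fun y _ => mem_iUnion.2 ⟨y, Metric.mem_ball_self (half_pos (hδ y))⟩)
  obtain ⟨ρ, hρ, hρ2⟩ : ∃ ρ : ℝ, 0 < ρ ∧ ∀ y ∈ T, ρ ≤ δ y / 2 := by
    rcases T.eq_empty_or_nonempty with rfl | hne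
    · exact ⟨1, one_pos, fun y hy => absurd hy (Finset.notMem_empty y)⟩
    · obtain ⟨y0, hy0, hmin⟩ := T.exists_min_image δ hne
      exact ⟨δ y0 / 2, half_pos (hδ y0), fun y hy => by linarith [hmin y hy]⟩
  refine ⟨ρ, hρ, fun y => ?_⟩
  by_cases hy : ‖y‖ ≤ 8
  · have h1 : y ∈ Metric.closedBall (0 : Pl) 8 := by
      rw [mem_closedBall_zero_iff]
      exact hy
    obtain ⟨z, hz⟩ := mem_iUnion.1 (hT h1)
    obtain ⟨hzT, hz2⟩ := mem_iUnion.1 hz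
    refine (measure_mono ?_).trans ((hδ2 z).trans (ENNReal.ofReal_le_ofReal ?_))
    · rintro ω ⟨u, hu, h⟩
      refine ⟨u, hu, ?_⟩
      rw [Metric.mem_ball, dist_eq_norm] at hz2
      calc ‖B u ω - z‖ = ‖(B u ω - y) + (y - z)‖ := by congr 1; abel
        _ ≤ ‖B u ω - y‖ + ‖y - z‖ := norm_add_le _ _
        _ < δ z := by linarith [hρ2 z hzT]
    · have : 0 ≤ ‖y‖ ^ 2 / 64 := by positivity
      linarith
  · push Not at hy
    calc μ {ω | ∃ u ∈ Set.Icc (1 : ℝ) b, ‖B u ω - y‖ < ρ} ≤ 1 := prob_le_one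
      _ = ENNReal.ofReal 1 := ENNReal.ofReal_one.symm
      _ ≤ ENNReal.ofReal (1 / 8 + ‖y‖ ^ 2 / 64) := ENNReal.ofReal_le_ofReal (by nlinarith)

end Pool.ADJ
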