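import Pool.Agent.H99.ADJ.Base

/-! # Project ADJ, module HLW: the one-point function does not depend on the Brownian motion -/

set_option autoImplicit false

open MeasureTheory ProbabilityTheory Set Filter Topology
open scoped NNReal ENNReal NNRat

namespace Pool.ADJ

private theorem hlw_dense : Set.Icc (0 : ℝ) 1 ⊆
    closure (Set.range fun q : {q : ℚ≥0 // q ≤ 1} => ((q : ℚ≥0) : ℝ)) := by
  intro t ht
  rw [Metric.mem_closure_range_iff]
  intro ε hε
  rcases eq_or_lt_of_le ht.2 with h1 | h1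
  · refine ⟨⟨1, le_rfl⟩, ?_⟩
    rw [h1]
    simpa using hε
  · obtain ⟨q, hq1, hq2⟩ := exists_rat_btwn (show t < min 1 (t + ε) from lt_min h1 (by linarith))
    have hq0 : (0 : ℝ) ≤ (q : ℝ) := ht.1.trans hq1.le
    have hq0' : (0 : ℚ) ≤ q := by exact_mod_cast hq0
    have hc : ((q.toNNRat : ℚ≥0) : ℝ) = (q : ℝ) := by
      rw [← Rat.cast_nnratCast, Rat.coe_toNNRat q hq0']
    refine ⟨⟨q.toNNRat, ?_⟩, ?_⟩
    · rw [Rat.toNNRat_le_iff_le_coe]
      have h2 : (q : ℝ) ≤ 1 := (hq2.trans_le (min_le_left _ _)).le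
      exact_mod_cast h2
    · change dist t ((q.toNNRat : ℚ≥0) : ℝ) < ε
      rw [hc, Real.dist_eq, abs_lt]
      have h3 : (q : ℝ) < t + ε := hq2.trans_le (min_le_right _ _)
      constructor <;> linarith

private theorem hlw_tr {Ω : Type} {B : ℝ → Ω → Pl} {ω : Ω} (hc : Continuous fun t => B t ω) :
    tr B ω 0 1 = closure (Set.range fun q : {q : ℚ≥0 // q ≤ 1} => path B ω q) := by
  apply Subset.antisymm
  · intro y hy
    obtain ⟨t, ht, rfl⟩ := hy
    have h1 := image_closure_subset_closure_image hc ⟨t, hlw_dense ht, rfl⟩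
    rw [← Set.range_comp] at h1
    exact h1
  · have h2 : IsClosed (tr B ω 0 1) := (isCompact_Icc.image hc).isClosed
    refine closure_minimal ?_ h2
    rintro _ ⟨q, rfl⟩
    refine ⟨((q : ℚ≥0) : ℝ), ⟨NNRat.cast_nonneg _, ?_⟩, rfl⟩
    exact_mod_cast q.2

private theorem hlw_pre {Ω : Type} {B : ℝ → Ω → Pl} (hc : ∀ ω, Continuous fun t => B t ω)
    (x : Pl) : {ω | LinkedInf (tr B ω 0 1) x} = path B ⁻¹' ((fun p : ℚ≥0 → Pl =>
      ((x, fun q : {q : ℚ≥0 // q ≤ 1} => p q) : Pl × ({q : ℚ≥0 // q ≤ 1} → Pl))) ⁻¹'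
        {p | LinkedInf (closure (Set.range p.2)) p.1}) := by
  ext ω
  simp only [Set.mem_setOf_eq, Set.mem_preimage]
  rw [hlw_tr (hc ω)]

theorem hlw_thm (h_LAW : S_LAW) (h_MEA : S_MEA) : S_HLW := by
  intro Ω _ μ B Ω' _ μ' B' hB hB' x
  have hm : MeasurableSet ((fun p : ℚ≥0 → Pl =>
      ((x, fun q : {q : ℚ≥0 // q ≤ 1} => p q) : Pl × ({q : ℚ≥0 // q ≤ 1} → Pl))) ⁻¹'
        {p | LinkedInf (closure (Set.range p.2)) p.1}) := by
    refine (h_MEA {q : ℚ≥0 // q ≤ 1}).preimage ?_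
    refine measurable_const.prodMk ?_
    exact measurable_pi_lambda _ fun q => measurable_pi_apply _
  have hp : Measurable (path B) :=
    measurable_pi_lambda _ fun q => hB.meas _ (NNRat.cast_nonneg _)
  have hp' : Measurable (path B') :=
    measurable_pi_lambda _ fun q => hB'.meas _ (NNRat.cast_nonneg _)
  rw [hlw_pre hB.cont x, hlw_pre hB'.cont x, ← Measure.map_apply hp hm,
    ← Measure.map_apply hp' hm, h_LAW Ω μ B Ω' μ' B' hB hB']

end Pool.ADJ
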