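import Pool.Agent.H99.ADJ.Base2

/-! # Project ADJ, module SEB: separation at arbitrarily small scales -/

set_option autoImplicit false

open MeasureTheory ProbabilityTheory Set Filter Topology
open scoped NNReal ENNReal NNRat

namespace Pool.ADJ

theorem seb_thm : S_SEB := by
  intro Ω _ μ B _ hI
  obtain ⟨L, hL, ρ, hρ, C, _, h⟩ := hI
  rw [ae_all_iff]
  intro n
  rw [ae_iff]
  have key : ∀ N : ℕ, μ {ω | ¬ ∃ a b r : ℝ, 0 < a ∧ a < b ∧ b ≤ 1 / (n + 1) ∧ 0 < r ∧
      ¬ BallInf (tr B ω a b) r} ≤ ENNReal.ofReal (C / 2 ^ N) := by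
    intro N
    have hLN : (0 : ℝ) < L ^ N := pow_pos (by linarith) N
    obtain ⟨s, hs⟩ : ∃ s : ℝ, s = 1 / ((n + 1) * L ^ N) := ⟨_, rfl⟩
    have hs0 : 0 < s := by rw [hs]; positivity
    refine (measure_mono ?_).trans (h s (ρ * √s) hs0 le_rfl N)
    intro ω hω j hj
    by_contra hb
    have hLj : (0 : ℝ) < L ^ j := pow_pos (by linarith) j
    refine hω ⟨2 * (L ^ j * s), L ^ (j + 1) * s, ρ * √s, by positivity, ?_, ?_, by positivity, hb⟩
    · have h1 : 0 < L ^ j * s := mul_pos hLj hs0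
      rw [pow_succ]
      nlinarith
    · have h1 : L ^ (j + 1) ≤ L ^ N := pow_le_pow_right₀ (by linarith) hj
      calc L ^ (j + 1) * s ≤ L ^ N * s := mul_le_mul_of_nonneg_right h1 hs0.le
        _ = 1 / (n + 1) := by
          rw [hs]
          field_simp
  have hlim : Tendsto (fun N : ℕ => ENNReal.ofReal (C / 2 ^ N)) atTop (𝓝 0) := by
    rw [← ENNReal.ofReal_zero]
    exact ENNReal.tendsto_ofReal
      (tendsto_const_nhds.div_atTop (tendsto_pow_atTop_atTop_of_one_lt one_lt_two))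
  exact le_antisymm (ge_of_tendsto' hlim key) bot_le

end Pool.ADJ
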