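import Pool.Agent.H99.ADJ.Fin0

/-! # Project ADJ, module TWA: the disconnected case, deterministic part (a) -/

set_option autoImplicit false

open Set Filter Topology

namespace Pool.ADJ

theorem twa_thm (h_EXT : S_EXT) : S_TWA := by
  intro f hf u hsep s t hsu hut ε hε
  obtain ⟨δ, hδ, hδ2⟩ := Metric.continuous_iff.1 hf u (ε / 2) (by positivity)
  obtain ⟨n, hn⟩ := exists_nat_one_div_lt (lt_min hδ (sub_pos.2 hut))
  obtain ⟨a, b, ha, hab, hb, hfu, hinf⟩ := hsep n
  have hbδ : b < δ := lt_of_le_of_lt hb (lt_of_lt_of_le hn (min_le_left _ _))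
  have hbt : b < t - u := lt_of_le_of_lt hb (lt_of_lt_of_le hn (min_le_right _ _))
  have hKK : f '' Set.Icc (u + a) (u + b) ⊆ f '' Set.Icc s t :=
    image_mono (Icc_subset_Icc (by linarith) (by linarith))
  have hcomp : IsCompact (f '' Set.Icc (u + a) (u + b)) := isCompact_Icc.image hf
  have hopen : IsOpen (f '' Set.Icc (u + a) (u + b))ᶜ := hcomp.isClosed.isOpen_compl
  have hball : f '' Set.Icc (u + a) (u + b) ⊆ Metric.closedBall (f u) (ε / 2) := by
    rintro y ⟨v, hv, rfl⟩
    have h1 : dist v u < δ := by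
      rw [Real.dist_eq, abs_lt]
      constructor <;> linarith [hv.1, hv.2]
    exact (hδ2 v h1).le
  generalize f '' Set.Icc (u + a) (u + b) = K' at *
  refine ⟨connectedComponentIn K'ᶜ (f u),
    hopen.connectedComponentIn.mem_nhds (mem_connectedComponentIn hfu), fun z hz hzK y hL => ?_⟩
  by_contra hd
  push Not at hd
  have hy : y ∉ Metric.closedBall (f u) (ε / 2) := by
    rw [Metric.mem_closedBall]
    linarith
  have hyK : y ∉ K' := fun h => hy (hball h)
  refine hinf ⟨y, hyK, (h_EXT.1 K' (f u) (ε / 2) hball y y hy hy).1, ?_⟩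
  have h1 := hL.mono hKK
  have hzK' : z ∉ K' := fun h => hzK (hKK h)
  refine Relation.ReflTransGen.head ⟨hfu, hzK', ?_⟩ h1
  rw [← connectedComponentIn_eq hz, inter_self]
  exact ⟨f u, subset_closure (mem_connectedComponentIn hfu)⟩

end Pool.ADJ
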